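import Mathlib
import Pool.Prelude.Def_F_c31e40fa
import Pool.Agent.Y298.CA.Cor

set_option autoImplicit false

open MeasureTheory Filter Metric

namespace Pool.Agent.Results.MP_af9036_an.ColletEckmannAreaAllDegrees

/-- The polynomial `z ^ d + c`. -/
def f (d : ℕ) (c : ℂ) : ℂ → ℂ := fun z => z ^ d + c

/-- The Collet-Eckmann condition with explicit constants: `c` lies in the Multibrot set and the
derivatives of the iterates of `f d c` at the critical value `c` grow at least like `lam ^ n / C₁`. -/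
def ColletEckmann (d : ℕ) (C₁ lam : ℝ) (c : ℂ) : Prop :=
  c ∈ N62a1eb23.multibrotSet d ∧ ∀ n : ℕ, lam ^ n ≤ C₁ * ‖deriv ((f d c)^[n]) c‖

/-- The area of the Multibrot sets of degree at least three near their Collet-Eckmann parameters. -/
theorem result (d : ℕ) (hd : 3 ≤ d) :
    (∀ C₁ lam E : ℝ, 1 ≤ C₁ → 1 < lam → 0 ≤ E →
      E * (1 - Real.log lam / (d * Real.log (2 * d))) < 2 →
      ∃ C : ℝ, 0 < C ∧ ∀ c₀ : ℂ, ColletEckmann d C₁ lam c₀ → ∀ r : ℝ, 0 < r →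
        volume (N62a1eb23.multibrotSet d ∩ ball c₀ r) ≤ ENNReal.ofReal (C * r ^ E)) ∧
    (∀ C₁ lam C₂ β E : ℝ, 1 ≤ C₁ → 1 < lam → 0 ≤ β → 0 ≤ E → E * (1 + β) < 2 * d / (d - 1) →
      ∃ C : ℝ, 0 < C ∧ ∀ c₀ : ℂ, ColletEckmann d C₁ lam c₀ →
        (∀ n : ℕ, 1 ≤ C₂ * (‖(f d c₀)^[n] c₀‖ * ‖deriv ((f d c₀)^[n]) c₀‖ ^ β)) →
        ∀ r : ℝ, 0 < r →
          volume (N62a1eb23.multibrotSet d ∩ ball c₀ r) ≤ ENNReal.ofReal (C * r ^ E)) := by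
  have h := Pool.Agent.Y298.CA.area_CE (d := d) (by omega)
  refine ⟨fun C₁ lam E h1 h2 h3 h4 => ?_, fun C₁ lam C₂ β E h1 h2 h3 h4 h5 => ?_⟩
  · obtain ⟨C, hC, H⟩ := h.1 C₁ lam E h1 h2 h3 h4
    exact ⟨C, hC, fun c₀ h₀ r hr => H c₀ h₀.1 h₀.2 r hr⟩
  · obtain ⟨C, hC, H⟩ := h.2 C₁ lam C₂ β E h1 h2 h3 h4 h5
    exact ⟨C, hC, fun c₀ h₀ hrec r hr => H c₀ h₀.1 h₀.2 hrec r hr⟩

end Pool.Agent.Results.MP_af9036_an.ColletEckmannAreaAllDegrees
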