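import Mathlib
import Pool.Agent.Y334.FU.Main
import Pool.Agent.Y334.FU.Link

/-!
# Over which dynamical systems are the hyperbolic fibered unicritical polynomials dense?

A fibered unicritical polynomial over `T : B → B` is a map `(x, z) ↦ (T x, z ^ d + c x)` of `B × ℂ`,
with a continuous function `c : B → ℂ`. Over the one-point base these are the maps `z ^ d + c`.
-/

set_option autoImplicit false

open Filter Topology

namespace Pool.Agent.Results.MP_af9036_an.FiberedUnicritical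

/-- The map `z ↦ z ^ d + c` is hyperbolic: the orbit of the critical point `0` tends to infinity or
is attracted by an attracting periodic point `z`. -/
def Hyperbolic (d : ℕ) (c : ℂ) : Prop :=
  Tendsto (fun k : ℕ => ‖(fun w : ℂ => w ^ d + c)^[k] 0‖) atTop atTop ∨
  ∃ (n : ℕ) (z : ℂ), 0 < n ∧ (fun w : ℂ => w ^ d + c)^[n] z = z ∧
    ‖deriv ((fun w : ℂ => w ^ d + c)^[n]) z‖ < 1 ∧
    Tendsto (fun k : ℕ => (fun w : ℂ => w ^ d + c)^[n * k] 0) atTop (𝓝 z)

/-- Q1 for the exponent `d`, word for word as in the frozen statement `S05829`: every parameter of the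
Multibrot set is a limit of parameters with an attracting cycle. -/
def Q1 (d : ℕ) : Prop :=
  ∀ c : ℂ, ¬ Tendsto (fun k : ℕ => ‖(fun z : ℂ => z ^ d + c)^[k] 0‖) atTop atTop →
    ∀ ε : ℝ, 0 < ε → ∃ c' : ℂ, dist c' c < ε ∧ ∃ z : ℂ, ∃ k : ℕ, 0 < k ∧
      (fun w : ℂ => w ^ d + c')^[k] z = z ∧ ‖deriv ((fun w : ℂ => w ^ d + c')^[k]) z‖ < 1

/-- The fibre iterates of `(x, z) ↦ (T x, z ^ d + c x)`. -/
noncomputable def fibre {B : Type} (T : B → B) (d : ℕ) (c : B → ℂ) : ℕ → B → ℂ → ℂ
  | 0, _, z => z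
  | k + 1, x, z => fibre T d c k x z ^ d + c (T^[k] x)

/-- The post-critical set: the forward orbits of all critical values. -/
def postCritical {B : Type} (T : B → B) (d : ℕ) (c : B → ℂ) : Set (B × ℂ) :=
  {p | ∃ y k, 1 ≤ k ∧ p = (T^[k] y, fibre T d c k y 0)}

/-- In the fibre over `x`, the `k`-th iterate contracts the disc of radius `r` around `v` by the
factor `K * lam ^ k`. -/
def Contracts {B : Type} (T : B → B) (d : ℕ) (c : B → ℂ) (r K lam : ℝ) (x : B) (v : ℂ) (k : ℕ) :
    Prop :=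
  ∀ z z', ‖z - v‖ < r → ‖z' - v‖ < r →
    ‖fibre T d c k x z - fibre T d c k x z'‖ ≤ K * lam ^ k * ‖z - z'‖

/-- Hyperbolicity of the fibered polynomial, with explicit constants: every point `p` of the closure
of the post-critical set has a neighbourhood `W` of its base point such that in every fibre over `W`
the disc of radius `r` around `p.2` is contracted exponentially by all iterates, or by all iterates
before some time from which on it escapes to infinity exponentially fast. -/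
def HyperbolicWith {B : Type} [TopologicalSpace B] (T : B → B) (d : ℕ) (c : B → ℂ)
    (r K lam : ℝ) : Prop :=
  ∀ p ∈ closure (postCritical T d c), ∃ W ∈ 𝓝 p.1, ∀ x ∈ W,
    (∀ k, Contracts T d c r K lam x p.2 k) ∨
    ∃ k₀, (∀ k < k₀, Contracts T d c r K lam x p.2 k) ∧
      ∀ k z, ‖z - p.2‖ < r → 2 ^ k ≤ ‖fibre T d c (k₀ + k) x z‖

/-- Hyperbolicity of the fibered polynomial `(x, z) ↦ (T x, z ^ d + c x)`. -/
def FiberHyperbolic {B : Type} [TopologicalSpace B] (T : B → B) (d : ℕ) (c : B → ℂ) : Prop :=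
  ∃ r K lam : ℝ, 0 < r ∧ 0 < lam ∧ lam < 1 ∧ HyperbolicWith T d c r K lam

/-- The functions `c` for which the fibered polynomial is hyperbolic are dense among all continuous
functions, for the uniform distance. -/
def DenseHyperbolic {B : Type} [TopologicalSpace B] (T : B → B) (d : ℕ) : Prop :=
  ∀ c : B → ℂ, Continuous c → ∀ ε : ℝ, 0 < ε → ∃ c' : B → ℂ, Continuous c' ∧
    (∀ x, ‖c' x - c x‖ < ε) ∧ FiberHyperbolic T d c'

theorem fibre_eq {B : Type} (T : B → B) (d : ℕ) (c : B → ℂ) (k : ℕ) (x : B) (z : ℂ) :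
    fibre T d c k x z = Pool.Agent.Y334.FN.fib T (Pool.Agent.Y334.FU.uni d c) k x z := by
  induction k with
  | zero => rfl
  | succ k ih =>
    rw [fibre, ih, Pool.Agent.Y334.FN.fib_succ, Pool.Agent.Y334.FU.uni_eval]

theorem hyp_iff {B : Type} [TopologicalSpace B] (T : B → B) {d : ℕ} (hd : 2 ≤ d) (c : B → ℂ)
    (r K lam : ℝ) : HyperbolicWith T d c r K lam ↔
      Pool.Agent.Y334.FN.HypP T (Pool.Agent.Y334.FU.uni d c) r K lam := by
  have hPC : postCritical T d c =
      Pool.Agent.Y334.FN.PCp T (Pool.Agent.Y334.FU.uni d c) := by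
    ext p
    constructor
    · rintro ⟨y, k, h1, h3⟩
      exact ⟨y, 0, k, h1, (Pool.Agent.Y334.FU.uni_crit hd y 0).2 rfl, by rw [h3, fibre_eq]⟩
    · rintro ⟨y, z, k, h1, h2, h3⟩
      rw [Pool.Agent.Y334.FU.uni_crit hd] at h2
      subst h2
      exact ⟨y, k, h1, by rw [h3, fibre_eq]⟩
  unfold HyperbolicWith Pool.Agent.Y334.FN.HypP
  rw [hPC]
  simp only [Contracts, Pool.Agent.Y334.FN.Con, fibre_eq]

theorem point_iff {d : ℕ} (hd : 2 ≤ d) (c : ℂ) :
    FiberHyperbolic (id : Unit → Unit) d (fun _ => c) ↔ Hyperbolic d c := by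
  set P : Polynomial ℂ := Pool.Agent.Y334.FU.uni d (fun _ : Unit => c) () with hP
  have hfun : (Pool.Agent.Y334.FU.uni d fun _ : Unit => c) = fun _ => P := by
    funext x
    rfl
  have hev : (fun w : ℂ => P.eval w) = fun w => w ^ d + c := by
    funext w
    exact Pool.Agent.Y334.FU.uni_eval () w
  have hdeg : 2 ≤ P.natDegree := by
    rw [hP, Pool.Agent.Y334.FU.uni_deg (by omega)]
    exact hd
  constructor
  · rintro ⟨r, K, lam, hr, hl0, hl1, h⟩
    rw [hyp_iff _ hd, hfun] at h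
    have h1 := Pool.Agent.Y334.FN.hyp_of_per hr hl0 hl1 h (fun _ => hdeg) (le_refl 1)
      (x₀ := ()) rfl
    have h2 : Pool.Agent.Y334.FN.cmp (fun _ => P) 1 = P := by
      simp [Pool.Agent.Y334.FN.cmp]
    rw [h2] at h1
    rcases h1 0 ((Pool.Agent.Y334.FU.uni_crit hd () 0).2 rfl) with h3 | ⟨n, hn, z, h3, h4, h5⟩
    · left
      have h3' : Tendsto (fun k : ℕ => ‖(fun w : ℂ => P.eval w)^[k] 0‖) atTop atTop := h3
      rw [hev] at h3'
      exact h3'
    · right
      rw [hev] at h3 h4 h5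
      exact ⟨n, z, hn, h3, h4, h5⟩
  · intro h
    obtain ⟨r, K, lam, hr, hl0, hl1, h1⟩ := Pool.Agent.Y334.FN.hyp_pt (P := P) hdeg (by
      intro z hz
      rw [hP, Pool.Agent.Y334.FU.uni_crit hd] at hz
      subst hz
      rcases h with h | ⟨n, z, hn, h3, h4, h5⟩
      · left
        show Tendsto (fun k : ℕ => ‖(fun w : ℂ => P.eval w)^[k] 0‖) atTop atTop
        rw [hev]
        exact h
      · right
        refine ⟨n, hn, z, ?_, ?_, ?_⟩
        · rw [hev]; exact h3
        · rw [hev]; exact h4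
        · rw [hev]; exact h5)
    refine ⟨r, K, lam, hr, hl0, hl1, ?_⟩
    rw [hyp_iff _ hd, hfun]
    exact h1

theorem hyp_eq (d : ℕ) (c : ℂ) : Hyperbolic d c ↔ Pool.Agent.Y334.FU.HypU d c := by
  constructor
  · rintro (h | ⟨n, z, hn, h1, h2, h3⟩)
    · exact Or.inl h
    · exact Or.inr ⟨n, z, ⟨hn, h1, h2⟩, h3⟩
  · rintro (h | ⟨n, z, ⟨hn, h1, h2⟩, h3⟩)
    · exact Or.inl h
    · exact Or.inr ⟨n, z, hn, h1, h2, h3⟩

theorem dense_point_iff {d : ℕ} (hd : 2 ≤ d) :
    DenseHyperbolic (id : Unit → Unit) d ↔ Q1 d := by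
  have h1 : DenseHyperbolic (id : Unit → Unit) d ↔
      ∀ c : ℂ, ∀ ε : ℝ, 0 < ε → ∃ c', ‖c' - c‖ < ε ∧ Pool.Agent.Y334.FU.HypU d c' := by
    constructor
    · intro h c ε hε
      obtain ⟨c', -, h2, h3⟩ := h (fun _ => c) continuous_const ε hε
      refine ⟨c' (), h2 (), ?_⟩
      rw [← hyp_eq, ← point_iff hd]
      exact h3
    · intro h c _ ε hε
      obtain ⟨c', h2, h3⟩ := h (c ()) ε hε
      refine ⟨fun _ => c', continuous_const, fun _ => h2, ?_⟩
      rw [point_iff hd, hyp_eq]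
      exact h3
  rw [h1, Pool.Agent.Y334.FU.link hd]
  constructor
  · intro h c hc ε hε
    obtain ⟨c', h2, z, k, h3, h4, h5⟩ := h c hc ε hε
    exact ⟨c', h2, z, k, h3, h4, h5⟩
  · intro h c hc ε hε
    obtain ⟨c', h2, z, k, h3, h4, h5⟩ := h c hc ε hε
    exact ⟨c', h2, z, k, h3, h4, h5⟩

/-- **Density of hyperbolicity for fibered unicritical polynomials**, for every degree `d ≥ 2`.

(I) Over the one-point base fibered hyperbolicity is hyperbolicity of `z ^ d + c`, and the density of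
the hyperbolic functions is Q1 for the exponent `d` (by theorems of Fatou and Montel).

(II) For every minimal homeomorphism `T` of an INFINITE compact Hausdorff space `B` the continuous
functions `c` for which `(x, z) ↦ (T x, z ^ d + c x)` is hyperbolic are dense if and only if `B` is
totally disconnected.

(III) More generally, let `T` be a homeomorphism without periodic points of a compact totally
disconnected Hausdorff space `B`. Then every `c` becomes hyperbolic after adding an arbitrarily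
small locally constant function.

(IV) Let `T` be a continuous self-map of a compact Hausdorff space having an infinite minimal set
`Y` which is not totally disconnected. Then the hyperbolic functions `c` are not dense. -/
theorem result (d : ℕ) (hd : 2 ≤ d) :
    -- (I)
    ((∀ c : ℂ, FiberHyperbolic (id : Unit → Unit) d (fun _ => c) ↔ Hyperbolic d c) ∧
      (DenseHyperbolic (id : Unit → Unit) d ↔ Q1 d)) ∧
    -- (II)
    (∀ (B : Type) [TopologicalSpace B] [CompactSpace B] [T2Space B] [Infinite B] (T : B ≃ₜ B),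
      (∀ x : B, Dense (Set.range fun k : ℕ => (⇑T)^[k] x)) →
      (DenseHyperbolic (⇑T) d ↔ TotallyDisconnectedSpace B)) ∧
    -- (III)
    (∀ (B : Type) [TopologicalSpace B] [CompactSpace B] [T2Space B] [TotallyDisconnectedSpace B]
      (T : B ≃ₜ B), (∀ x : B, ∀ k : ℕ, 1 ≤ k → (⇑T)^[k] x ≠ x) →
      ∀ c : B → ℂ, Continuous c → ∀ ε : ℝ, 0 < ε →
      ∃ s : B → ℂ, IsLocallyConstant s ∧ (∀ x, ‖s x‖ < ε) ∧
        FiberHyperbolic (⇑T) d fun x => c x + s x) ∧
    -- (IV)
    (∀ (B : Type) [TopologicalSpace B] [CompactSpace B] [T2Space B] (T : B → B), Continuous T →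
      ∀ Y : Set B, IsClosed Y → Set.MapsTo T Y Y →
      (∀ x ∈ Y, Y ⊆ closure (Set.range fun k : ℕ => T^[k] x)) → Y.Infinite →
      ¬ IsTotallyDisconnected Y → ¬ DenseHyperbolic T d) := by
  have hdense : ∀ {B : Type} [TopologicalSpace B] (T : B → B),
      DenseHyperbolic T d ↔ ∀ c : B → ℂ, Continuous c → ∀ ε : ℝ, 0 < ε → ∃ c' : B → ℂ,
        Continuous c' ∧ (∀ x, ‖c' x - c x‖ < ε) ∧ ∃ r C lam : ℝ, 0 < r ∧ 0 < lam ∧ lam < 1 ∧
          Pool.Agent.Y334.FN.HypP T (Pool.Agent.Y334.FU.uni d c') r C lam := by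
    intro B _ T
    simp only [DenseHyperbolic, FiberHyperbolic, hyp_iff T hd]
  refine ⟨⟨fun c => point_iff hd c, dense_point_iff hd⟩, ?_, ?_, ?_⟩
  · intro B _ _ _ _ T hT
    rw [hdense]
    exact Pool.Agent.Y334.FU.minimal_iffU T hT hd
  · intro B _ _ _ _ T hT c hc ε hε
    obtain ⟨s, r, K, lam, h3, h4, hr, hl0, hl1, h5⟩ :=
      Pool.Agent.Y334.FU.densU T hT hd hc hε
    exact ⟨s, (IsLocallyConstant.iff_eventually_eq _).2 h3, h4, r, K, lam, hr, hl0, hl1,
      (hyp_iff _ hd _ _ _ _).2 h5⟩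
  · intro B _ _ _ T hT Y hYc hY hmin hinf htd h
    rw [hdense] at h
    obtain ⟨c, δ, hδ, h1, h3⟩ := Pool.Agent.Y334.FU.robustU hT hYc hY hmin hinf htd hd
    obtain ⟨c', h4, h6, r, K, lam, hr, hl0, hl1, h7⟩ := h c h1 δ hδ
    exact h3 c' h4 h6 r K lam hr hl0 hl1 h7

end Pool.Agent.Results.MP_af9036_an.FiberedUnicritical
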