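import Mathlib
import Pool.Prelude.Def_F_c31e40fa
import Pool.Agent.Y811.PC.Fin5

set_option autoImplicit false

/-!
# MP_af9036_an: exact order of the density of hyperbolicity at the parabolic parameters

The upper bounds follow from the fixed point formula: if no cycle is attracting then the multiplier of
every cycle is outside of explicit horodiscs. The lower bounds follow from the parabolic contact law
(project PC: helpers 48, 67, 70, 93, 151, 153, 154, 165, 167, 185, 274, 297, 331, 349, 350, 356, 366, 388,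
419, 421, 429, 447, 448, 458, 475, 484, 510, 547, 587, 592, 606, 658, 672, 678, 888, 978, 983 and 811) and
Koebe's theorem. Parts of this result by helpers 109, 151, 259, 500, 590, 977 and 811; the tools on the
exterior map by helpers 677, 712, 713 and 736, Koebe's theorem by helper 240.
-/

open MeasureTheory Metric Set N62a1eb23

namespace Pool.Agent.Results.MP_af9036_an.ParabolicDensity

/-- The `m`-th iterate of `z ^ d + c`. -/
def iter (d m : ℕ) (c z : ℂ) : ℂ := (fun z : ℂ => z ^ d + c)^[m] z

/-- The derivative of the `m`-th iterate of `z ^ d + c`: the multiplier, at a point of period `m`. -/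
noncomputable def mult (d m : ℕ) (c z : ℂ) : ℂ := deriv (iter d m c) z

/-- `z₀` is a point of exact period `m` of `z ^ d + c₀` and its multiplier is a primitive `q`-th root of
unity: `c₀` is a parabolic parameter. -/
def IsParabolicPoint (d m q : ℕ) (c₀ z₀ : ℂ) : Prop :=
  1 ≤ m ∧ 1 ≤ q ∧ iter d m c₀ z₀ = z₀ ∧ (∀ j, 0 < j → j < m → iter d j c₀ z₀ ≠ z₀) ∧
    IsPrimitiveRoot (mult d m c₀ z₀) q

/-- The hyperbolic parameters: `z ^ d + c` has an attracting cycle. -/
def Hyp (d : ℕ) : Set ℂ := {c : ℂ | ∃ n z, IsAttractingCycle (fun z : ℂ => z ^ d + c) n z}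

/-- Exact order of the density of hyperbolicity at every parabolic parameter `c₀` of every Multibrot set.
Let `e = 3 / 2` if the multiplier is `1` and `e = 2` otherwise. Then in the disc of radius `r` about `c₀`
the parameters without attracting cycle have area at most `C r ^ (1 + e)`, already the parameters outside
of the Multibrot set have area at least `r ^ (1 + e) / C`, no disc of radius larger than `C r ^ e` is free
of hyperbolic parameters, and some disc of radius `r ^ e / C` is disjoint from the Multibrot set. -/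
theorem result (d : ℕ) (hd : 2 ≤ d) (m q : ℕ) (c₀ z₀ : ℂ) (h : IsParabolicPoint d m q c₀ z₀) (e : ℝ)
    (he : e = if mult d m c₀ z₀ = 1 then 3 / 2 else 2) :
    ∃ C r₀ : ℝ, 0 < C ∧ 0 < r₀ ∧ ∀ r : ℝ, 0 < r → r < r₀ →
      volume (ball c₀ r \ Hyp d) ≤ ENNReal.ofReal (C * r ^ (1 + e)) ∧
      ENNReal.ofReal (r ^ (1 + e) / C) ≤ volume (ball c₀ r \ multibrotSet d) ∧
      (∀ (c₁ : ℂ) (s : ℝ), ball c₁ s ⊆ ball c₀ r \ Hyp d → s ≤ C * r ^ e) ∧
      ∃ c₁ : ℂ, ball c₁ (r ^ e / C) ⊆ ball c₀ r \ multibrotSet d := by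
  obtain ⟨h1, h2, h3, h4, h5⟩ := h
  have hset : ∀ r : ℝ, ball c₀ r \ Hyp d = ball c₀ r ∩ {c | ¬ Pool.Agent.Y811.PC.HypP d c} := by
    intro r
    ext c
    constructor
    · rintro ⟨hc, hn⟩
      refine ⟨hc, ?_⟩
      rintro ⟨N, z, hN, hfix, hlt⟩
      exact hn ⟨N, z, hN, hfix, (Pool.Agent.Y811.PC.G_differentiable d N c) z, hlt⟩
    · rintro ⟨hc, hn⟩
      refine ⟨hc, ?_⟩
      rintro ⟨N, z, hN, hfix, -, hlt⟩
      exact hn ⟨N, z, hN, hfix, hlt⟩
  simp only [hset]
  exact Pool.Agent.Y811.PC.dens_final ⟨hd, h1, h2, h3, h4, h5⟩ he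

end Pool.Agent.Results.MP_af9036_an.ParabolicDensity
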