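import Mathlib
import Pool.Prelude.Def_F_c31e40fa
import Pool.Agent.Y272.TY.All
import Pool.Agent.Y272.TY.NearG
import Pool.Agent.Y298.CD.Fin

set_option autoImplicit false

/-!
# MP_af9036_an: hyperbolic parameters near almost every boundary point of the Multibrot sets
-/

open MeasureTheory Filter Metric Complex Topology

namespace Pool.Agent.Results.MP_af9036_an.TypicalParameters

open Pool.Agent.H713R2 Pool.Agent.H712R2 Pool.Agent.Y272.TY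

/-- The polynomial `z ^ d + c`. -/
def f (d : ℕ) (c : ℂ) : ℂ → ℂ := fun z => z ^ d + c

/-- The parameter `c` is near to superattracting parameters and to escaping parameters, every disk in
the Multibrot set centred at `c` is small, and the filled Julia set of `f d c` is small, in terms of
the distance between `c` and `c₀`. -/
def Close (d : ℕ) (C σ : ℝ) (c₀ c : ℂ) : Prop :=
  (∃ c' : ℂ, ‖c' - c‖ ≤ C * ‖c - c₀‖ ^ σ ∧ ∃ p : ℕ, 1 ≤ p ∧ (f d c')^[p] 0 = 0 ∧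
    N62a1eb23.IsAttractingCycle (f d c') p 0) ∧
  (∃ c' : ℂ, ‖c' - c‖ ≤ C * ‖c - c₀‖ ^ σ ∧ c' ∉ N62a1eb23.multibrotSet d) ∧
  (∀ γ : ℂ → ℂ, DifferentiableOn ℂ γ (ball 0 1) →
    (∀ u ∈ ball (0 : ℂ) 1, γ u ∈ N62a1eb23.multibrotSet d) → γ 0 = c →
    ‖deriv γ 0‖ ≤ C * ‖c - c₀‖ ^ σ) ∧
  volume {z : ℂ | ¬ Tendsto (fun k => (f d c)^[k] z) atTop (Bornology.cobounded ℂ)} ≤
    ENNReal.ofReal (C * ‖c - c₀‖ ^ (2 * σ / d))

theorem close_of {d : ℕ} (hd : 2 ≤ d) {β : ℂ → ℂ} (hβ : IsBeta d β) {θ : ℝ} {c₀ : ℂ} {A : ℝ}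
    {R : ℂ} (h : Typ d β θ c₀ A R) {σ : ℝ} (hσ0 : 0 ≤ σ) (hσ : σ < d / ((d : ℝ) - 1)) :
    ∃ C : ℝ, 0 < C ∧ ∀ c ∈ N62a1eb23.multibrotSet d, c ≠ c₀ → Close d C σ c₀ c := by
  have hdR : (2 : ℝ) ≤ d := by exact_mod_cast hd
  have hd1 : 0 < (d : ℝ) - 1 := by linarith
  obtain ⟨t, ht⟩ : ∃ t : ℝ, t = σ * (d - 1) / d := ⟨_, rfl⟩
  have ht0 : 0 ≤ t := by rw [ht]; positivity
  have ht1 : t < 1 := by
    rw [lt_div_iff₀ hd1] at hσ
    rw [ht, div_lt_one (by positivity)]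
    exact hσ
  -- choose the order of recurrence
  obtain ⟨b, hb0, hb⟩ : ∃ b : ℝ, 0 < b ∧ t * (1 + b) < 1 := by
    refine ⟨(1 - t) / 2, by linarith, ?_⟩
    nlinarith
  have e1 : 2 * t / ((d : ℝ) - 1) = 2 * σ / d := by
    rw [ht]
    field_simp
  have e2 : d * t / ((d : ℝ) - 1) = σ := by
    rw [ht]
    field_simp
  obtain ⟨C₁, hC₁, hexp⟩ := h.ce hd (lam := 3 / 2) (by norm_num) (by linarith)
  obtain ⟨C₂, hC₂, hrec⟩ := h.slow hd hb0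
  have h₁ := Pool.Agent.Y298.SH.CD.cep_of_mem hd hC₁ (by norm_num : (1 : ℝ) < 3 / 2)
    (h.mem hd hβ) hexp
  obtain ⟨C, hC, H⟩ := Pool.Agent.Y298.SH.CD.upper hd C₁ (3 / 2) hC₂ hb0.le ht0 hb
  obtain ⟨C', hC', H'⟩ := Pool.Agent.Y298.SH.CD.upper_uniform hd C₁ (3 / 2) hC₂ hb0.le ht0 hb
  rw [e1, e2] at H H'
  refine ⟨C + C', by positivity, fun c hc hcc => ?_⟩
  obtain ⟨h1, ⟨c1, h2, h2'⟩, ⟨c2, h3, h3'⟩, -⟩ := H c₀ h₁ hrec c hc hcc
  obtain ⟨-, h4⟩ := H' c₀ h₁ hrec c hc hcc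
  have hp : 0 ≤ ‖c - c₀‖ ^ σ := by positivity
  have hp' : 0 ≤ ‖c - c₀‖ ^ (2 * σ / d) := by positivity
  have hA : C * ‖c - c₀‖ ^ σ ≤ (C + C') * ‖c - c₀‖ ^ σ :=
    mul_le_mul_of_nonneg_right (by linarith) hp
  have hB : C' * ‖c - c₀‖ ^ σ ≤ (C + C') * ‖c - c₀‖ ^ σ :=
    mul_le_mul_of_nonneg_right (by linarith) hp
  have hA' : C * ‖c - c₀‖ ^ (2 * σ / d) ≤ (C + C') * ‖c - c₀‖ ^ (2 * σ / d) :=
    mul_le_mul_of_nonneg_right (by linarith) hp'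
  exact ⟨⟨c1, h2.trans hA, h2'⟩, ⟨c2, h3.trans hA, h3'⟩,
    fun γ g1 g2 g3 => (h4 γ g1 g2 g3).trans hB, h1.trans (ENNReal.ofReal_le_ofReal hA')⟩

/-- Hyperbolic parameters near harmonic-almost every boundary point of the Multibrot sets. -/
theorem result (d : ℕ) (hd : 2 ≤ d) :
    (∃ ψ : ℂ → ℂ, IsExteriorMap (N62a1eb23.multibrotSet d) ψ) ∧
    ∀ ψ : ℂ → ℂ, IsExteriorMap (N62a1eb23.multibrotSet d) ψ →
      ∀ᵐ θ : ℝ, ∃ c₀ ∈ frontier (N62a1eb23.multibrotSet d), ∃ A : ℝ, 0 < A ∧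
        Tendsto (fun r : ℝ => ψ (r * Complex.exp (θ * I))) (𝓝[>] 1) (𝓝 c₀) ∧
        -- (1) growth of the derivatives at the critical value
        (∀ᶠ n : ℕ in atTop, |Real.log ‖deriv ((f d c₀)^[n]) c₀‖ - n * Real.log d| ≤
          32 * √(n * Real.log d * Real.log (Real.log n))) ∧
        -- (2) polynomial recurrence
        (∀ n : ℕ, 1 ≤ ((n : ℝ) + 2) ^ A * ‖(f d c₀)^[n] c₀‖) ∧
        -- (3) transversality
        (∃ R : ℂ, R ≠ 0 ∧ Tendsto (fun n : ℕ => deriv (fun c => (f d c)^[n] c) c₀ /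
          deriv ((f d c₀)^[n]) c₀) atTop (𝓝 R)) ∧
        -- (4) superattracting parameters of period dividing `n + 1` or `n + 2`
        (∀ n : ℕ, ∃ c : ℂ, ‖c - c₀‖ * ‖deriv ((f d c₀)^[n]) c₀‖ ≤ A * Real.log (n + 2) ∧
          ((f d c)^[n + 1] 0 = 0 ∨ (f d c)^[n + 2] 0 = 0)) ∧
        -- (5) no superattracting parameters of period at most `n` too close
        (∀ (n : ℕ) (c : ℂ), ‖c - c₀‖ * (d : ℝ) ^ n ≤
            Real.exp (-(A * √(((n : ℝ) + 1) * Real.log (Real.log (n + 16))))) →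
          ∀ k : ℕ, 1 ≤ k → k ≤ n → (f d c)^[k] 0 ≠ 0) ∧
        -- (6) density of hyperbolicity with a power
        (∀ σ : ℝ, 0 ≤ σ → σ < d / ((d : ℝ) - 1) →
          ∃ C : ℝ, 0 < C ∧ ∀ c ∈ N62a1eb23.multibrotSet d, c ≠ c₀ → Close d C σ c₀ c) := by
  obtain ⟨β, hβ⟩ := exists_beta (d := d) hd
  refine ⟨⟨_, exteriorMap_of_beta hβ⟩, ?_⟩
  intro ψ hψ
  filter_upwards [ae_neg' (typical_all hd hβ)] with θ hθ
  obtain ⟨c₀, A, R, h⟩ := hθ
  obtain ⟨B1, hB1, hnear⟩ := h.near hd Pool.Agent.Y272.TY.nearG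
  obtain ⟨B2, hB2, hcen⟩ := h.centre hd hβ Pool.Agent.Y165.TY.centre
  have hA := h.A0
  have hf : f d = fc d := rfl
  obtain ⟨Q, hQ⟩ : ∃ Q : ℝ, Q = A + 2 * B1 + B2 := ⟨_, rfl⟩
  refine ⟨c₀, h.frontier hd hβ, Q, by rw [hQ]; linarith, h.tendsto_psi hβ hψ, ?_, ?_, ?_, ?_, ?_,
    ?_⟩
  · filter_upwards [h.lilM hd] with n hn
    rw [hf, (deriv_iter hd c₀ n).deriv]
    exact hn
  · intro n
    rw [hf, iter_c hd n c₀]
    have h1 := h.rec' n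
    have h2 : Real.exp (-(Q * Real.log (n + 2))) ≤ ‖P d (n + 1) c₀‖ :=
      rec_mono (by linarith) h.rec' n
    have h3 : ((n : ℝ) + 2) ^ Q = Real.exp (Q * Real.log (n + 2)) := by
      rw [Real.rpow_def_of_pos (by positivity), mul_comm]
    rw [h3]
    calc (1 : ℝ) = Real.exp (Q * Real.log (n + 2)) * Real.exp (-(Q * Real.log (n + 2))) := by
          rw [← Real.exp_add, add_neg_cancel, Real.exp_zero]
      _ ≤ _ := mul_le_mul_of_nonneg_left h2 (Real.exp_pos _).le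
  · refine ⟨R, h.R0, ?_⟩
    refine h.lim.congr fun n => ?_
    rw [hf, (deriv_iter hd c₀ n).deriv, fun_iter_eq hd n]
  · intro n
    obtain ⟨c, h1, h2⟩ := hcen n
    refine ⟨c, ?_, h2⟩
    rw [hf, (deriv_iter hd c₀ n).deriv]
    refine h1.trans (mul_le_mul_of_nonneg_right (by linarith) ?_)
    linarith [log_two_le n]
  · intro n c hc k hk1 hk
    refine hnear n c (hc.trans ?_) k hk1 hk
    rw [Real.exp_le_exp, neg_le_neg_iff]
    unfold gg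
    have h1 := Real.sqrt_nonneg (((n : ℝ) + 1) * Real.log (Real.log (n + 16)))
    have h2 : 2 * B1 * √(((n : ℝ) + 1) * Real.log (Real.log (n + 16))) ≤
        Q * √(((n : ℝ) + 1) * Real.log (Real.log (n + 16))) :=
      mul_le_mul_of_nonneg_right (by linarith) h1
    linarith
  · intro σ h1 h2
    exact close_of hd hβ h h1 h2

end Pool.Agent.Results.MP_af9036_an.TypicalParameters
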